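import Mathlib

set_option autoImplicit false

namespace Pool.Agent.H.MP_7538d4_al
open Matrix

abbrev k := ZMod 2
abbrev M2 := Matrix (Fin 2) (Fin 2) k
abbrev Q := Fin 2 ⊕ Fin 2

/-- triples `(a, d, b)` multiplied like lower triangular matrices `[[a, 0], [b l, d]]` -/
@[ext] structure Tri (R : Type) where
  a : R
  d : R
  b : Fin 3 → R

variable {R : Type} [Ring R]

instance : Mul (Tri R) := ⟨fun x y => ⟨x.a * y.a, x.d * y.d, fun l => x.b l * y.a + x.d * y.b l⟩⟩
instance : One (Tri R) := ⟨⟨1, 1, fun _ => 0⟩⟩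

@[simp] lemma mul_a (x y : Tri R) : (x * y).a = x.a * y.a := rfl
@[simp] lemma mul_d (x y : Tri R) : (x * y).d = x.d * y.d := rfl
@[simp] lemma mul_b (x y : Tri R) (l) : (x * y).b l = x.b l * y.a + x.d * y.b l := rfl
@[simp] lemma one_a : (1 : Tri R).a = 1 := rfl
@[simp] lemma one_d : (1 : Tri R).d = 1 := rfl
@[simp] lemma one_b (l) : (1 : Tri R).b l = 0 := rfl

instance : Monoid (Tri R) where
  mul_assoc x y z := by ext <;> simp [mul_assoc, add_mul, mul_add, add_assoc]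
  one_mul x := by ext <;> simp
  mul_one x := by ext <;> simp

variable [Algebra k R]

structure Hyp {F : Type} (x : F → Tri R) : Prop where
  e1 : ∀ t : R, (∀ f, t * (x f).a = (x f).a * t) → ∃ c : k, t = algebraMap k R c
  e2 : ∀ t : R, (∀ f, t * (x f).d = (x f).d * t) → ∃ c : k, t = algebraMap k R c
  h1 : ∀ t : R, (∀ f, t * (x f).d = (x f).a * t) → t = 0
  h2 : ∀ (t : R) (c : Fin 3 → k),
    (∀ f, t * (x f).a = (x f).d * t + ∑ l, c l • (x f).b l) → t = 0 ∧ c = 0

def B (r : Fin 3 → M2) (b : Fin 3 → R) : Matrix (Fin 2) (Fin 2) R :=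
  Matrix.of fun u v => ∑ l, r l u v • b l

def D (a : R) : Matrix (Fin 2) (Fin 2) R := diagonal fun _ => a

def A (r : Fin 3 → M2) (x : Tri R) : Matrix Q Q R := fromBlocks (D x.a) 0 (B r x.b) (D x.d)
def N (r : Fin 3 → M2) (x : Tri R) : Matrix Q Q R := fromBlocks 0 0 (B r x.b) 0

omit [Algebra k R] in
lemma D_mul (a b : R) : D (a * b) = D a * D b := by simp [D, diagonal_mul_diagonal]
omit [Algebra k R] in
lemma D_one : D (1 : R) = 1 := by simp [D]

lemma B_mul (r : Fin 3 → M2) (x y : Tri R) :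
    B r (x * y).b = B r x.b * D y.a + D x.d * B r y.b := by
  ext u v
  simp [B, D, mul_diagonal, diagonal_mul, Finset.sum_mul, Finset.mul_sum, Finset.sum_add_distrib]

lemma B_one (r : Fin 3 → M2) : B r (1 : Tri R).b = 0 := by
  ext u v
  simp [B]

lemma A_mul (r : Fin 3 → M2) (x y : Tri R) : A r (x * y) = A r x * A r y := by
  simp [A, fromBlocks_multiply, D_mul, B_mul]

lemma A_one (r : Fin 3 → M2) : A r (1 : Tri R) = 1 := by
  simp [A, D_one, B_one]

lemma N_mul (r s m : Fin 3 → M2) (x y : Tri R) :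
    N m (x * y) = N m x * A r y + A s x * N m y := by
  simp [A, N, fromBlocks_multiply, B_mul, fromBlocks_add]

lemma N_one (r : Fin 3 → M2) : N r (1 : Tri R) = 0 := by
  simp [N, B_one]

lemma N_zero (x : Tri R) : N 0 x = 0 := by
  have : B (0 : Fin 3 → M2) x.b = 0 := by ext u v; simp [B]
  simp [N, this]

lemma N_sum (c : Fin 3 → k) (m : Fin 3 → Fin 3 → M2) (x : Tri R) :
    ∑ j, c j • N (m j) x = N (∑ j, c j • m j) x := by
  ext (u | u) (v | v) <;>
    simp [N, B, Fin.sum_univ_three, smul_smul, add_smul]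
  abel

lemma block {F : Type} {x : F → Tri R} (H : Hyp x) (r s m : Fin 3 → M2) (T : Matrix Q Q R)
    (hT : ∀ f, T * A r (x f) = A s (x f) * T + N m (x f)) :
    ∃ t1 t2 : M2, T = fromBlocks (t1.map (algebraMap k R)) 0 0 (t2.map (algebraMap k R)) ∧
      ∀ l, t2 * r l = s l * t1 + m l := by
  rw [← fromBlocks_toBlocks T] at hT ⊢
  generalize T.toBlocks₁₁ = T1 at hT ⊢
  generalize T.toBlocks₁₂ = T2 at hT ⊢
  generalize T.toBlocks₂₁ = T3 at hT ⊢
  generalize T.toBlocks₂₂ = T4 at hT ⊢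
  simp only [A, N, fromBlocks_multiply, fromBlocks_add, fromBlocks_inj, mul_zero, zero_mul,
    add_zero, zero_add] at hT
  have h2 : T2 = 0 := by
    ext u v
    refine H.h1 _ fun f => ?_
    have := congrFun (congrFun (hT f).2.1 u) v
    simpa [D, mul_diagonal, diagonal_mul] using this
  subst h2
  simp only [mul_zero, zero_mul, add_zero, zero_add] at hT
  have h1 : ∀ u v, ∃ c : k, T1 u v = algebraMap k R c := fun u v => H.e1 _ fun f => by
    have := congrFun (congrFun (hT f).1 u) v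
    simpa [D, mul_diagonal, diagonal_mul] using this
  have h4 : ∀ u v, ∃ c : k, T4 u v = algebraMap k R c := fun u v => H.e2 _ fun f => by
    have := congrFun (congrFun (hT f).2.2.2 u) v
    simpa [D, mul_diagonal, diagonal_mul] using this
  choose t1 h1 using h1
  choose t2 h4 using h4
  have h3 : ∀ u v, T3 u v = 0 ∧
      (fun l => (s l * Matrix.of t1 + m l - Matrix.of t2 * r l) u v) = 0 := fun u v =>
    H.h2 _ _ fun f => by
      have := congrFun (congrFun (hT f).2.2.1 u) v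
      simp only [D, Matrix.add_apply, mul_diagonal, diagonal_mul] at this
      simp only [Matrix.mul_apply, B, h1, h4, of_apply, Fin.sum_univ_two, Fin.sum_univ_three,
        ← Algebra.smul_def, ← Algebra.commutes, smul_add, smul_smul] at this
      simp only [Matrix.mul_apply, of_apply, Fin.sum_univ_two, Fin.sum_univ_three,
        Matrix.sub_apply, Matrix.add_apply, add_smul, sub_smul]
      rw [← sub_eq_zero] at this ⊢
      rw [← this]
      simp only [mul_comm (t1 _ _)]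
      abel
  refine ⟨Matrix.of t1, Matrix.of t2, ?_, fun l => ?_⟩
  · rw [fromBlocks_inj]
    refine ⟨?_, rfl, ?_, ?_⟩
    · ext u v; simp [h1]
    · ext u v; exact (h3 u v).1
    · ext u v; simp [h4]
  · rw [eq_comm, ← sub_eq_zero]
    ext u v
    exact congrFun (h3 u v).2 l

def ph : Fin 3 → M2 := ![!![0, 0; 0, 1], !![0, 0; 1, 0], !![0, 1; 0, 0]]
def ch : Fin 3 → M2 := ![!![0, 0; 0, 1], !![0, 0; 1, 0], !![1, 0; 0, 0]]
def ps : Fin 3 → Fin 3 → M2 :=
  ![![!![1, 0; 0, 0], 0, 0], ![!![0, 1; 0, 0], 0, 0], ![0, !![0, 1; 0, 0], 0]]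

lemma kr1 : ∀ t1 t2 : M2, (∀ l, t2 * ph l = ph l * t1 + (0 : Fin 3 → M2) l) →
    (t1 = 0 ∧ t2 = 0) ∨ (t1 = 1 ∧ t2 = 1) := by decide +kernel
lemma kr2 : ∀ t1 t2 : M2, (∀ l, t2 * ch l = ch l * t1 + (0 : Fin 3 → M2) l) →
    (t1 = 0 ∧ t2 = 0) ∨ (t1 = 1 ∧ t2 = 1) := by decide +kernel
lemma kr3 : ∀ t1 t2 : M2, (∀ l, t2 * ch l = ph l * t1 + (0 : Fin 3 → M2) l) →
    t1 = 0 ∧ t2 = 0 := by decide +kernel
lemma kr4 : ∀ (c : Fin 3 → k) (t1 t2 : M2),
    (∀ l, t2 * ph l = ch l * t1 + (∑ j, c j • ps j) l) → t1 = 0 ∧ t2 = 0 ∧ c = 0 := by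
  decide +kernel

def emb : Tri R →* Tri (Matrix Q Q R) where
  toFun x := ⟨A ph x, A ch x, fun j => N (ps j) x⟩
  map_one' := by ext1 <;> simp [A_one, N_one]; rfl
  map_mul' x y := by
    ext1
    · exact A_mul ..
    · exact A_mul ..
    · funext j; exact N_mul ..

lemma scal (t1 t2 : M2) (h : (t1 = 0 ∧ t2 = 0) ∨ (t1 = 1 ∧ t2 = 1)) :
    ∃ c : k, fromBlocks (t1.map (algebraMap k R)) 0 0 (t2.map (algebraMap k R)) =
      algebraMap k (Matrix Q Q R) c := by
  rcases h with ⟨rfl, rfl⟩ | ⟨rfl, rfl⟩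
  · exact ⟨0, by simp⟩
  · exact ⟨1, by simp⟩

theorem Hyp.step {F : Type} {x : F → Tri R} (H : Hyp x) : Hyp fun f => emb (x f) where
  e1 t ht := by
    obtain ⟨t1, t2, rfl, h⟩ := block H ph ph 0 t fun f => by rw [N_zero, add_zero]; exact ht f
    exact scal _ _ (kr1 _ _ h)
  e2 t ht := by
    obtain ⟨t1, t2, rfl, h⟩ := block H ch ch 0 t fun f => by rw [N_zero, add_zero]; exact ht f
    exact scal _ _ (kr2 _ _ h)
  h1 t ht := by
    obtain ⟨t1, t2, rfl, h⟩ := block H ch ph 0 t fun f => by rw [N_zero, add_zero]; exact ht f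
    obtain ⟨rfl, rfl⟩ := kr3 _ _ h
    simp
  h2 t c ht := by
    obtain ⟨t1, t2, rfl, h⟩ := block H ph ch (∑ j, c j • ps j) t fun f => by
      rw [← N_sum]; exact ht f
    obtain ⟨rfl, rfl, rfl⟩ := kr4 _ _ _ h
    simp

lemma A_ph_eq_one (x : Tri R) (h : A ph x = 1) : x = 1 := by
  rw [A, ← fromBlocks_one, fromBlocks_inj] at h
  obtain ⟨h1, -, h2, h3⟩ := h
  have e1 := congrFun (congrFun h1 0) 0
  have e3 := congrFun (congrFun h3 0) 0
  have e0 := congrFun (congrFun h2 1) 1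
  have e1' := congrFun (congrFun h2 1) 0
  have e2 := congrFun (congrFun h2 0) 1
  simp [D, B, ph, Fin.sum_univ_three] at e1 e3 e0 e1' e2
  ext l <;> try simp [e1, e3]
  fin_cases l <;> simp [e0, e1', e2]

lemma A_ch_eq_one (x : Tri R) (h : A ch x = 1) : x = 1 := by
  rw [A, ← fromBlocks_one, fromBlocks_inj] at h
  obtain ⟨h1, -, h2, h3⟩ := h
  have e1 := congrFun (congrFun h1 0) 0
  have e3 := congrFun (congrFun h3 0) 0
  have e0 := congrFun (congrFun h2 1) 1
  have e1' := congrFun (congrFun h2 1) 0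
  have e2 := congrFun (congrFun h2 0) 0
  simp [D, B, ch, Fin.sum_univ_three] at e1 e3 e0 e1' e2
  ext l <;> try simp [e1, e3]
  fin_cases l <;> simp [e0, e1', e2]

/-- the centraliser of the family is trivial -/
theorem Hyp.cent [Nontrivial R] {F : Type} {x : F → Tri R} (H : Hyp x) (g : (Tri R)ˣ)
    (hg : ∀ f, (g : Tri R) * x f = x f * g) : g = 1 := by
  have key : ∀ t t' : R, t * t' = 1 → (∃ c : k, t = algebraMap k R c) → t = 1 := by
    rintro t t' h ⟨c, rfl⟩
    rcases (by decide : ∀ c : k, c = 0 ∨ c = 1) c with rfl | rfl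
    · simp at h
    · simp
  have ha : (g : Tri R).a = 1 := key _ (g⁻¹ : (Tri R)ˣ).1.a (by rw [← mul_a]; simp)
    (H.e1 _ fun f => congrArg Tri.a (hg f))
  have hd : (g : Tri R).d = 1 := key _ (g⁻¹ : (Tri R)ˣ).1.d (by rw [← mul_d]; simp)
    (H.e2 _ fun f => congrArg Tri.d (hg f))
  ext l
  · exact ha
  · exact hd
  · refine (H.h2 _ 0 fun f => ?_).1
    have := congrFun (congrArg Tri.b (hg f)) l
    simp only [mul_b, ha, hd, one_mul, mul_one] at this
    simp only [Pi.zero_apply, zero_smul, Finset.sum_const_zero, add_zero]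
    rw [add_comm ((x f).b l)] at this
    exact add_right_cancel this

end Pool.Agent.H.MP_7538d4_al
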