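import Mathlib
import Pool.Agent.H.MP_7538d4_al.A
import Pool.Agent.Lib.helper16.PSL

set_option autoImplicit false

namespace Pool.Agent.H.MP_7538d4_al
open Matrix

lemma k_cases (c : k) : c = 0 ∨ c = 1 := by revert c; decide

theorem GL_simple (I : Type) [Fintype I] [DecidableEq I] (h : 2 < Fintype.card I) :
    IsSimpleGroup (Matrix I I k)ˣ := by
  have := Pool.Agent.Lib.helper16.PSL.PSL_simple (F := k) h
  have hc : Subgroup.center (SpecialLinearGroup I k) = ⊥ := by
    rw [eq_bot_iff]
    intro A hA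
    obtain ⟨r, hr, e⟩ := Matrix.SpecialLinearGroup.mem_center_iff.1 hA
    rcases k_cases r with rfl | rfl
    · rw [zero_pow (by omega)] at hr
      exact absurd hr (by decide)
    · rw [Subgroup.mem_bot]
      exact Subtype.ext (by rw [← e]; simp)
  have e1 : ProjectiveSpecialLinearGroup I k ≃* SpecialLinearGroup I k :=
    (QuotientGroup.quotientMulEquivOfEq hc).trans QuotientGroup.quotientBot
  have e2 : SpecialLinearGroup I k ≃* (Matrix I I k)ˣ :=
    MulEquiv.ofBijective (SpecialLinearGroup.toGL (n := I) (R := k))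
      ⟨SpecialLinearGroup.toGL_injective, fun g => ⟨⟨g.1, by
        rcases k_cases (g.1.det) with h | h
        · exact absurd ((isUnit_iff_isUnit_det _).1 g.isUnit) (by rw [h]; decide)
        · exact h⟩, Units.ext rfl⟩⟩
  exact (e1.trans e2).symm.isSimpleGroup

/-- commutation pattern of length `m` -/
def Pat (G : Type) [Group G] (m : ℕ) : Prop :=
  ∃ h h' : Fin m → G, ∀ i j, h i * h' j = h' j * h i ↔ i ≠ j

lemma Pat.map {G H : Type} [Group G] [Group H] {m : ℕ} (p : Pat G m) (f : G →* H)
    (hf : Function.Injective f) : Pat H m := by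
  obtain ⟨h, h', e⟩ := p
  exact ⟨fun i => f (h i), fun i => f (h' i), fun i j => by
    rw [← map_mul, ← map_mul, hf.eq_iff, e]⟩

def tv {I : Type} [Fintype I] [DecidableEq I] (i j : I) (h : i ≠ j) : (Matrix I I k)ˣ :=
  SpecialLinearGroup.toGL (SpecialLinearGroup.transvection h 1)

lemma tv_val {I : Type} [Fintype I] [DecidableEq I] (i j : I) (h : i ≠ j) :
    (tv i j h : Matrix I I k) = 1 + single i j 1 := rfl

theorem GL_pat (I : Type) [Fintype I] [DecidableEq I] (m : ℕ) (h : m + 2 ≤ Fintype.card I) :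
    Pat (Matrix I I k)ˣ m := by
  obtain ⟨e⟩ : Nonempty (Fin m ⊕ Fin 2 ↪ I) :=
    Function.Embedding.nonempty_of_card_le (by simpa using h)
  have n1 : ∀ i j, e (.inr i) ≠ e (.inl j) := fun i j => by simp
  have n2 : e (.inr 1) ≠ e (.inr 0) := by simp
  refine ⟨fun i => tv _ _ (n1 0 i), fun i => tv _ _ (n1 1 i).symm, fun i j => ?_⟩
  rw [Units.ext_iff]
  simp only [Units.val_mul, tv_val, mul_add, add_mul, one_mul, mul_one,
    single_mul_single_of_ne _ _ _ _ n2, add_zero]
  by_cases hij : i = j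
  · subst hij
    simp only [single_mul_single_same, ne_eq, not_true, iff_false]
    intro hh
    have : single (e (.inr 0)) (e (.inr 1)) (1 * 1 : k) = 0 := by
      rw [← sub_eq_zero] at hh
      rw [← hh]; abel
    have := congrFun (congrFun this (e (.inr 0))) (e (.inr 1))
    simp at this
  · rw [single_mul_single_of_ne _ _ _ _ (by simpa using hij)]
    simp only [ne_eq, hij, not_false_iff, iff_true]
    abel

variable {R : Type} [Ring R]

def ia : R →* Tri R where
  toFun a := ⟨a, 1, fun _ => 0⟩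
  map_one' := rfl
  map_mul' x y := by ext <;> simp
def id' : R →* Tri R where
  toFun a := ⟨1, a, fun _ => 0⟩
  map_one' := rfl
  map_mul' x y := by ext <;> simp
def pa : Tri R →* R where
  toFun x := x.a
  map_one' := rfl
  map_mul' _ _ := rfl
def pd : Tri R →* R where
  toFun x := x.d
  map_one' := rfl
  map_mul' _ _ := rfl
def un (b : Fin 3 → R) : (Tri R)ˣ where
  val := ⟨1, 1, b⟩
  inv := ⟨1, 1, -b⟩
  val_inv := by ext <;> simp
  inv_val := by ext <;> simp

lemma key_norm {G H K : Type} [Group G] [Group H] [Group K] [IsSimpleGroup H]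
    (hnc : ∃ x y : H, x * y ≠ y * x)
    (p : G →* H) (q : G →* K) (i : H →* G) (hp : ∀ x, p (i x) = x) (hq : ∀ x, q (i x) = 1)
    (M : Subgroup G) [M.Normal] (g : G) (hg : g ∈ M) (h1 : p g ≠ 1) (x : H) :
    ∃ n ∈ M, p n = x ∧ q n = 1 := by
  have hs : Function.Surjective p := fun x => ⟨_, hp x⟩
  have hZ : Subgroup.center H = ⊥ := by
    refine (IsSimpleGroup.eq_bot_or_eq_top_of_normal _ inferInstance).resolve_right fun h => ?_
    obtain ⟨x, y, hxy⟩ := hnc
    exact hxy (Subgroup.mem_center_iff.1 (h ▸ Subgroup.mem_top y) x)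
  have hN : ((M ⊓ q.ker).map p).Normal := Subgroup.Normal.map inferInstance p hs
  have hT : (M ⊓ q.ker).map p = ⊤ := by
    refine (IsSimpleGroup.eq_bot_or_eq_top_of_normal _ hN).resolve_left fun h => h1 ?_
    rw [← Subgroup.mem_bot, ← hZ, Subgroup.mem_center_iff]
    intro y
    have hm : i y * g * (i y)⁻¹ * g⁻¹ ∈ M ⊓ q.ker :=
      Subgroup.mem_inf.2 ⟨M.mul_mem (Subgroup.Normal.conj_mem inferInstance _ hg _) (M.inv_mem hg),
        by simp [MonoidHom.mem_ker, hq]⟩
    have := Subgroup.mem_map_of_mem p hm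
    rw [h, Subgroup.mem_bot] at this
    simp only [map_mul, map_inv, hp] at this
    rw [mul_inv_eq_one, mul_inv_eq_iff_eq_mul] at this
    exact this
  obtain ⟨n, hn, e⟩ : x ∈ (M ⊓ q.ker).map p := hT ▸ Subgroup.mem_top x
  exact ⟨n, hn.1, e, hn.2⟩

theorem norm_top [IsSimpleGroup Rˣ] (hnc : ∃ x y : Rˣ, x * y ≠ y * x)
    (hw : ∃ w : Rˣ, IsUnit ((w : R) - 1)) (M : Subgroup (Tri R)ˣ) [M.Normal] (g : (Tri R)ˣ)
    (hg : g ∈ M) (ha : (g : Tri R).a ≠ 1) (hd : (g : Tri R).d ≠ 1) : M = ⊤ := by
  have k1 := key_norm hnc (Units.map pa) (Units.map pd) (Units.map ia) (fun x => Units.ext rfl)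
    (fun x => Units.ext rfl) M g hg (fun h => ha (congrArg Units.val h))
  have k2 := key_norm hnc (Units.map pd) (Units.map pa) (Units.map id') (fun x => Units.ext rfl)
    (fun x => Units.ext rfl) M g hg (fun h => hd (congrArg Units.val h))
  have k3 : ∀ b, un b ∈ M := by
    intro b
    obtain ⟨w, v, hv⟩ := hw
    obtain ⟨n, hn, e1, e2⟩ := k1 w
    have e1 : (n : Tri R).a = w := congrArg Units.val e1
    have e2 : (n : Tri R).d = 1 := congrArg Units.val e2
    set c : Fin 3 → R := fun l => b l * (v⁻¹ : Rˣ)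
    have : n * un b = un c * n * (un c)⁻¹ := by
      rw [eq_mul_inv_iff_mul_eq]
      ext l
      · simp [un]
      · simp [un]
      · have : b l = c l * w - c l := by
          rw [← mul_sub_one, ← hv]; simp [c]
        simp [un, e1, e2, this]
        abel
    have h2 : n * un b ∈ M := this ▸ Subgroup.Normal.conj_mem inferInstance _ hn _
    exact (M.mul_mem_cancel_left hn).1 h2
  have k4 : ∀ n : (Tri R)ˣ, (n : Tri R).a = 1 → (n : Tri R).d = 1 → n ∈ M := by
    intro n e1 e2
    have : n = un (n : Tri R).b := by ext l <;> simp [un, e1, e2]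
    exact this ▸ k3 _
  rw [eq_top_iff]
  intro x _
  obtain ⟨n1, hn1, a1, d1⟩ := k1 (Units.map pa x)
  obtain ⟨n2, hn2, d2, a2⟩ := k2 (Units.map pd x)
  have : (n1 * n2)⁻¹ * x ∈ M := k4 _
    (congrArg Units.val (show Units.map pa ((n1 * n2)⁻¹ * x) = 1 by simp [a1, a2]))
    (congrArg Units.val (show Units.map pd ((n1 * n2)⁻¹ * x) = 1 by simp [d1, d2]))
  exact (M.mul_mem_cancel_left (M.inv_mem (M.mul_mem hn1 hn2))).1 this

/-- a group with arbitrarily long commutation patterns is not linear -/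
theorem not_linear {G : Type} [Group G] (hp : ∀ m, Pat G m) (K : Type) [Field K] (n : ℕ)
    (f : G →* GeneralLinearGroup (Fin n) K) : ¬ Function.Injective f := by
  intro hf
  set V := Matrix (Fin n) (Fin n) K
  obtain ⟨h, h', e⟩ := (hp (Module.finrank K V + 1)).map f hf
  let C : ℕ → Submodule K V := fun j =>
    Subalgebra.toSubmodule (Subalgebra.centralizer K {x : V | ∃ i, i.1 < j ∧ x = h i})
  have hC : ∀ j, j ≤ Module.finrank K V + 1 → Module.finrank K (C j) + j ≤ Module.finrank K V := by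
    intro j
    induction j with
    | zero => intro _; exact Submodule.finrank_le _
    | succ j ih =>
      intro hj
      have : C (j + 1) < C j := by
        refine lt_of_le_of_ne (fun x hx => ?_) fun hh => ?_
        · rintro _ ⟨i, hi, rfl⟩
          exact hx _ ⟨i, by omega, rfl⟩
        · have : (h' ⟨j, hj⟩ : V) ∈ C j := by
            rintro _ ⟨i, hi, rfl⟩
            exact congrArg Units.val ((e i ⟨j, hj⟩).2 fun hh => by rw [hh] at hi; simp at hi)
          rw [← hh] at this
          exact (e ⟨j, hj⟩ ⟨j, hj⟩).1 (Units.ext (this _ ⟨⟨j, hj⟩, by simp, rfl⟩)) rfl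
      have := Submodule.finrank_lt_finrank_of_lt this
      have := ih (by omega)
      omega
  have := hC _ le_rfl
  omega

end Pool.Agent.H.MP_7538d4_al
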