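import Mathlib
import Pool.Agent.H.MP_7538d4_al.B

set_option autoImplicit false

namespace Pool.Agent.H.MP_7538d4_al

section lim
variable {G : ℕ → Type} [∀ n, Group (G n)] (φ : ∀ n, G n →* G (n + 1))

def fG (n m : ℕ) (h : n ≤ m) : G n →* G m :=
  Nat.leRec (motive := fun m _ => G n →* G m) (MonoidHom.id _) (fun m _ ih => (φ m).comp ih) h

theorem fG_self (n : ℕ) (x) : fG φ n n le_rfl x = x := by rw [fG, Nat.leRec_self]; rfl
theorem fG_succ (n m : ℕ) (h : n ≤ m) (h' : n ≤ m + 1) (x) :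
    fG φ n (m + 1) h' x = φ m (fG φ n m h x) := by rw [fG, Nat.leRec_succ _ _ h]; rfl

instance : DirectedSystem G (fG φ · · ·) where
  map_self := fG_self φ
  map_map k j i hij hjk x := by
    induction k, hjk using Nat.le_induction with
    | base => rw [fG_self]
    | succ k h ih => rw [fG_succ φ j k h, ih, fG_succ φ i k (hij.trans h)]

theorem fG_inj (hφ : ∀ n, Function.Injective (φ n)) (n m : ℕ) (h : n ≤ m) :
    Function.Injective (fG φ n m h) := by
  induction m, h using Nat.le_induction with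
  | base => intro x y e; rwa [fG_self, fG_self] at e
  | succ k h ih =>
    intro x y e
    rw [fG_succ φ n k h, fG_succ φ n k h] at e
    exact ih (hφ k e)

abbrev GLim : Type := DirectLimit G (fG φ)

noncomputable def jG (n : ℕ) : G n →* GLim φ :=
  MonoidHom.mk' (fun x => ⟦⟨n, x⟩⟧) (fun _ _ => (DirectLimit.mul_def ..).symm)

theorem jG_f (n m : ℕ) (h : n ≤ m) (x) : jG φ m (fG φ n m h x) = jG φ n x :=
  DirectLimit.mk_apply ..
theorem jG_b (n : ℕ) (x) : jG φ (n + 1) (φ n x) = jG φ n x := by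
  rw [← jG_f φ n (n + 1) (Nat.le_succ n), fG_succ φ n n le_rfl, fG_self]
theorem jG_inj (hφ : ∀ n, Function.Injective (φ n)) (n : ℕ) : Function.Injective (jG φ n) :=
  DirectLimit.mk_injective _ (fG_inj φ hφ) n

theorem exG (g : GLim φ) : ∃ n, ∀ m, n ≤ m → ∃ x, jG φ m x = g := by
  obtain ⟨n, x, rfl⟩ := DirectLimit.exists_eq_mk _ g
  exact ⟨n, fun m h => ⟨_, jG_f φ n m h x⟩⟩

theorem lim_simple [Nontrivial (G 0)] (hφ : ∀ n, Function.Injective (φ n))
    (hs : ∀ n (x : G n), x ≠ 1 → ∀ M : Subgroup (G (n + 1)), M.Normal → φ n x ∈ M → M = ⊤) :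
    IsSimpleGroup (GLim φ) := by
  have : Nontrivial (GLim φ) := (jG_inj φ hφ 0).nontrivial
  refine ⟨fun M hM => ?_⟩
  by_cases h : M = ⊥
  · exact .inl h
  refine .inr (eq_top_iff.2 fun y _ => ?_)
  obtain ⟨⟨g, hg⟩, h1⟩ := (Subgroup.ne_bot_iff_exists_ne_one.1 h)
  obtain ⟨n, hn⟩ := exG φ g
  obtain ⟨m, hm⟩ := exG φ y
  obtain ⟨x, rfl⟩ := hn (n + m) (by omega)
  obtain ⟨z, rfl⟩ := hm (n + m + 1) (by omega)
  have := hs (n + m) x (fun e => h1 (Subtype.ext (by simp [e]))) (M.comap (jG φ _))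
    (hM.comap _) (by rw [Subgroup.mem_comap, jG_b]; exact hg)
  exact (this ▸ Subgroup.mem_top z : z ∈ M.comap (jG φ _))

theorem lim_lf [∀ n, Finite (G n)] (s : Finset (GLim φ)) :
    Finite (Subgroup.closure (s : Set (GLim φ))) := by
  choose n hn using exG φ
  have : Subgroup.closure (s : Set (GLim φ)) ≤ (jG φ (s.sup n)).range := by
    rw [Subgroup.closure_le]
    intro g hg
    exact hn g _ (Finset.le_sup hg)
  have h2 : Finite (jG φ (s.sup n)).range := Finite.of_surjective _ (jG φ _).rangeRestrict_surjective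
  exact Finite.of_injective _ (Subgroup.inclusion_injective this)

theorem lim_cent (hφ : ∀ n, Function.Injective (φ n))
    (hc : ∀ n (g : G n), (∀ f, g * fG φ 0 n n.zero_le f = fG φ 0 n n.zero_le f * g) → g = 1) :
    Subgroup.centralizer ((jG φ 0).range : Set (GLim φ)) = ⊥ := by
  rw [eq_bot_iff]
  intro g hg
  obtain ⟨n, hn⟩ := exG φ g
  obtain ⟨x, rfl⟩ := hn n le_rfl
  rw [hc n x fun f => jG_inj φ hφ n ?_]
  · simp
  · rw [map_mul, map_mul, jG_f]
    exact (hg _ ⟨f, rfl⟩).symm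

end lim

open Matrix

noncomputable def RR : ℕ → AlgCat.{0} k
  | 0 => AlgCat.of k M2
  | n + 1 => AlgCat.of k (Matrix Q Q (RR n))

lemma RR_iso (n : ℕ) : ∃ (I : Type) (_ : Fintype I) (_ : DecidableEq I),
    n + 2 ≤ Fintype.card I ∧ Nonempty (RR n ≃+* Matrix I I k) := by
  induction n with
  | zero => exact ⟨Fin 2, inferInstance, inferInstance, by simp, ⟨RingEquiv.refl _⟩⟩
  | succ n ih =>
    obtain ⟨I, _, _, h, ⟨e⟩⟩ := ih
    refine ⟨Q × I, inferInstance, inferInstance, by simp; omega,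
      ⟨(RingEquiv.mapMatrix (m := Q) e).trans (compRingEquiv Q I k)⟩⟩

lemma RR_w (n : ℕ) : ∃ w : RR n, w * w = w + 1 := by
  induction n with
  | zero => exact (⟨!![0, 1; 1, 1], by decide⟩ : ∃ w : M2, w * w = w + 1)
  | succ n ih =>
    obtain ⟨w, h⟩ := ih
    exact ⟨Matrix.scalar Q w, by
      change Matrix.scalar Q w * Matrix.scalar Q w = Matrix.scalar Q w + 1
      rw [← map_mul, h, map_add, map_one]⟩

instance (n : ℕ) : Finite (RR n) := by
  obtain ⟨I, _, _, -, ⟨e⟩⟩ := RR_iso n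
  exact Finite.of_equiv _ e.symm.toEquiv

instance (n : ℕ) : Nontrivial (RR n) := by
  obtain ⟨I, _, _, h, ⟨e⟩⟩ := RR_iso n
  have : Nonempty I := Fintype.card_pos_iff.1 (by omega)
  exact e.toEquiv.nontrivial

instance (R : Type) [Finite R] : Finite (Tri R) :=
  Finite.of_injective (fun x : Tri R => (x.a, x.d, x.b)) fun x y h => by
    simp only [Prod.mk.injEq] at h
    exact Tri.ext h.1 h.2.1 h.2.2

lemma RR_pat (n : ℕ) : Pat (RR n)ˣ n := by
  obtain ⟨I, _, _, h, ⟨e⟩⟩ := RR_iso n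
  exact (GL_pat I n h).map (Units.mapEquiv e.symm.toMulEquiv).toMonoidHom
    (Units.mapEquiv e.symm.toMulEquiv).injective

lemma RR_simple (n : ℕ) : IsSimpleGroup (RR (n + 1))ˣ := by
  obtain ⟨I, _, _, h, ⟨e⟩⟩ := RR_iso (n + 1)
  have := GL_simple I (by omega)
  exact (Units.mapEquiv e.toMulEquiv).isSimpleGroup

abbrev GG (n : ℕ) : Type := (Tri (RR n))ˣ

noncomputable def φ (n : ℕ) : GG n →* GG (n + 1) := Units.map (emb (R := RR n))

lemma φ_a (n : ℕ) (x : GG n) (h : (φ n x).1.a = 1) : x = 1 := Units.ext (A_ph_eq_one _ h)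
lemma φ_d (n : ℕ) (x : GG n) (h : (φ n x).1.d = 1) : x = 1 := Units.ext (A_ch_eq_one _ h)

lemma φ_inj (n : ℕ) : Function.Injective (φ n) :=
  (injective_iff_map_eq_one _).2 fun x h => φ_a n x (by rw [h]; rfl)

lemma φ_norm (n : ℕ) (x : GG n) (hx : x ≠ 1) (M : Subgroup (GG (n + 1))) (hM : M.Normal)
    (h : φ n x ∈ M) : M = ⊤ := by
  have := RR_simple n
  refine norm_top ?_ ?_ M _ h (fun e => hx (φ_a n x e)) (fun e => hx (φ_d n x e))
  · obtain ⟨h, h', e⟩ := RR_pat (n + 1)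
    exact ⟨h 0, h' 0, fun hh => (e 0 0).1 hh rfl⟩
  · obtain ⟨w, hw⟩ := RR_w (n + 1)
    have h1 : w * (w - 1) = 1 := by rw [mul_sub, hw]; simp
    have h2 : (w - 1) * w = 1 := by rw [sub_mul, hw]; simp
    exact ⟨⟨w, w - 1, h1, h2⟩, ⟨w - 1, w, h2, h1⟩, rfl⟩

def u1 : M2ˣ := ⟨!![1, 1; 0, 1], !![1, 1; 0, 1], by decide, by decide⟩
def u2 : M2ˣ := ⟨!![1, 0; 1, 1], !![1, 0; 1, 1], by decide, by decide⟩

lemma b1 : ∀ t : M2, t * u1 = u1 * t → t * u2 = u2 * t → t = 0 ∨ t = 1 := by decide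
lemma b2 : ∀ t : M2, t * 1 = u1 * t → t * 1 = u2 * t → t = 0 := by decide
lemma b3 : ∀ t : M2, t * u1 = t → t * u2 = t → t = 0 := by decide

lemma hyp0 : Hyp fun f : (Tri M2)ˣ => f.1 where
  e1 t h := by
    rcases b1 t (h (Units.map ia u1)) (h (Units.map ia u2)) with rfl | rfl
    · exact ⟨0, by simp⟩
    · exact ⟨1, by simp⟩
  e2 t h := by
    rcases b1 t (h (Units.map id' u1)) (h (Units.map id' u2)) with rfl | rfl
    · exact ⟨0, by simp⟩
    · exact ⟨1, by simp⟩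
  h1 t h := b2 t (h (Units.map ia u1)) (h (Units.map ia u2))
  h2 t c h := by
    have ht : t = 0 := b3 t (by simpa [ia] using h (Units.map ia u1))
      (by simpa [ia] using h (Units.map ia u2))
    refine ⟨ht, funext fun l => ?_⟩
    have := h (un (Pi.single l 1))
    simp [un, ht, Pi.single_apply] at this
    have := congrFun (congrFun this 0) 0
    simpa using this.symm

lemma hypn (n : ℕ) : Hyp fun f : GG 0 => (fG φ 0 n n.zero_le f).1 := by
  induction n with
  | zero => simp only [fG_self]; exact hyp0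
  | succ n ih =>
    simp only [fG_succ φ 0 n n.zero_le]
    exact ih.step

instance : Nontrivial (GG 0) :=
  ⟨⟨un fun _ => 1, 1, fun h => one_ne_zero (congrFun (congrArg (fun x : GG 0 => x.1.b) h) 0)⟩⟩

lemma lim_pat (m : ℕ) : Pat (GLim φ) m :=
  ((RR_pat m).map (Units.map ia) fun _ _ h =>
    Units.ext (congrArg (fun x : GG m => x.1.a) h)).map _ (jG_inj φ φ_inj m)

end Pool.Agent.H.MP_7538d4_al
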